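import Pool.Agent.Q255.IR.Stm

/-!
# A random branch of a tree
-/

set_option autoImplicit false

namespace Pool.Agent.Q150.IR

open Filter Topology MeasureTheory
open Pool.Agent.Q255.IC
open Pool.Agent.Q255.IR (D S_TREE)
open scoped ENNReal

section tree

variable {N M : ℕ → ℕ} (e : ∀ j : ℕ, (Fin (N j) → Bool) → Fin (M j) → (Fin (N (j + 1)) → Bool))

/-- the words along the branch given by the indices `x` -/
def wd (x : ∀ j, Fin (M j)) : ∀ j, Fin (N j) → Bool
  | 0 => fun _ => true
  | j + 1 => e j (wd x j) (x j)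

theorem wd_coh (hN : StrictMono N)
    (he : ∀ j s i (k : ℕ) (h1 : k < N j) (h2 : k < N (j + 1)), e j s i ⟨k, h2⟩ = s ⟨k, h1⟩)
    (x : ∀ j, Fin (M j)) {j m : ℕ} (hjm : j ≤ m) :
    ∀ (k : ℕ) (h1 : k < N j) (h2 : k < N m), wd e x m ⟨k, h2⟩ = wd e x j ⟨k, h1⟩ := by
  induction m, hjm using Nat.le_induction with
  | base => intro k h1 h2; rfl
  | succ m hm ih =>
    intro k h1 h2
    have h3 : k < N m := lt_of_lt_of_le h1 (hN.monotone hm)
    rw [← ih k h1 h3]
    exact he m _ _ k h3 h2

/-- the branch -/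
def br (x : ∀ j, Fin (M j)) (k : ℕ) : Bool :=
  if h : k < N (k + 1) then wd e x (k + 1) ⟨k, h⟩ else true

theorem lt_N (hN : StrictMono N) (k : ℕ) : k < N (k + 1) := by
  have : k + 1 ≤ N (k + 1) := hN.le_apply
  omega

theorem br_eq (hN : StrictMono N)
    (he : ∀ j s i (k : ℕ) (h1 : k < N j) (h2 : k < N (j + 1)), e j s i ⟨k, h2⟩ = s ⟨k, h1⟩)
    (x : ∀ j, Fin (M j)) (j k : ℕ) (h : k < N j) : br e x k = wd e x j ⟨k, h⟩ := by
  unfold br
  rw [dif_pos (lt_N hN k)]
  rcases le_total j (k + 1) with hle | hle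
  · exact wd_coh e hN he x hle k h (lt_N hN k)
  · exact (wd_coh e hN he x hle k (lt_N hN k) h).symm

theorem wd_meas : ∀ j, Measurable fun x : ∀ j, Fin (M j) => wd e x j
  | 0 => measurable_const
  | j + 1 => by
    have h1 : Measurable (fun p : (Fin (N j) → Bool) × Fin (M j) => e j p.1 p.2) :=
      Measurable.of_discrete
    have h2 : Measurable (fun x : ∀ j, Fin (M j) => (wd e x j, x j)) :=
      (wd_meas j).prodMk (measurable_pi_apply j)
    exact h1.comp h2

theorem br_meas : Measurable fun x : ∀ j, Fin (M j) => br e x := by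
  refine measurable_pi_iff.2 fun k => ?_
  unfold br
  by_cases h : k < N (k + 1)
  · simp only [dif_pos h]
    exact (measurable_pi_apply _).comp (wd_meas e (k + 1))
  · simp only [dif_neg h]
    exact measurable_const

theorem wd_inj (hN : StrictMono N)
    (he : ∀ j s i (k : ℕ) (h1 : k < N j) (h2 : k < N (j + 1)), e j s i ⟨k, h2⟩ = s ⟨k, h1⟩)
    (hinj : ∀ j s, Function.Injective (e j s)) {x x' : ∀ j, Fin (M j)} {J : ℕ}
    (h : wd e x J = wd e x' J) {j : ℕ} (hj : j < J) : x j = x' j := by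
  have key : ∀ m, m ≤ J → wd e x m = wd e x' m := by
    intro m hm
    funext k
    have h1 := wd_coh e hN he x hm k k.2 (lt_of_lt_of_le k.2 (hN.monotone hm))
    have h2 := wd_coh e hN he x' hm k k.2 (lt_of_lt_of_le k.2 (hN.monotone hm))
    rw [h] at h1
    exact h1.symm.trans h2
  have h1 := key (j + 1) hj
  have h2 := key j hj.le
  have h3 : e j (wd e x j) (x j) = e j (wd e x' j) (x' j) := h1
  rw [h2] at h3
  exact hinj j _ h3

end tree

theorem tree_main {N M : ℕ → ℕ} (e : ∀ j : ℕ, (Fin (N j) → Bool) → Fin (M j) → (Fin (N (j + 1)) → Bool))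
    (hN0 : N 0 = 0) (hN : StrictMono N) (hM : ∀ j, 0 < M j)
    (he : ∀ j s i (k : ℕ) (h1 : k < N j) (h2 : k < N (j + 1)), e j s i ⟨k, h2⟩ = s ⟨k, h1⟩)
    (hinj : ∀ j s, Function.Injective (e j s)) {p₀ : ℝ} (hp0 : 0 < p₀)
    (hMp : ∀ j, p₀ * 2 ^ (N (j + 1) - N j) ≤ (M j : ℝ)) :
    ∃ ν : Measure (ℕ → Bool), IsProbabilityMeasure ν ∧
      (∀ Q : (ℕ → Bool) → Prop, MeasurableSet {ω | Q ω} → (∀ x, Q (br e x)) → ∀ᵐ ω ∂ν, Q ω) ∧
      ∀ J n, n ≤ N J → ∀ s : Fin n → Bool,
        ν.real {ω | ∀ k : Fin n, ω k = s k} ≤ (p₀ ^ J * 2 ^ n)⁻¹ := by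
  classical
  have hne : ∀ j, Nonempty (Fin (M j)) := fun j => ⟨⟨0, hM j⟩⟩
  obtain ⟨μ, hμ⟩ : ∃ μ : ∀ j, Measure (Fin (M j)), μ = fun j => (PMF.uniformOfFintype (Fin (M j))).toMeasure :=
    ⟨_, rfl⟩
  have hμp : ∀ j, IsProbabilityMeasure (μ j) := by
    intro j
    rw [hμ]
    infer_instance
  have hμs : ∀ j (i : Fin (M j)), μ j {i} = ((M j : ℝ≥0∞))⁻¹ := by
    intro j i
    rw [hμ]
    show (PMF.uniformOfFintype (Fin (M j))).toMeasure {i} = _
    rw [PMF.toMeasure_apply_singleton _ _ (MeasurableSet.singleton i), PMF.uniformOfFintype_apply,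
      Fintype.card_fin]
  obtain ⟨P, hP⟩ : ∃ P : Measure (∀ j, Fin (M j)), P = Measure.infinitePi μ := ⟨_, rfl⟩
  have hPp : IsProbabilityMeasure P := by rw [hP]; infer_instance
  have hcyl : ∀ J (t : Fin (N J) → Bool), P {x | wd e x J = t} ≤ ∏ j ∈ Finset.range J, ((M j : ℝ≥0∞))⁻¹ := by
    intro J t
    rcases Set.eq_empty_or_nonempty {x | wd e x J = t} with h | ⟨x0, hx0⟩
    · rw [h, measure_empty]
      exact zero_le
    · have hsub : {x | wd e x J = t} ⊆ Set.pi (Finset.range J) (fun j => {x0 j}) := by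
        intro x hx j hj
        rw [Set.mem_singleton_iff]
        have h1 : wd e x J = wd e x0 J := by
          have a1 : wd e x J = t := hx
          have a2 : wd e x0 J = t := hx0
          rw [a1, a2]
        exact wd_inj e hN he hinj h1 (by simpa using hj)
      refine (measure_mono hsub).trans (le_of_eq ?_)
      rw [hP, Measure.infinitePi_pi μ (fun j _ => MeasurableSet.singleton _)]
      exact Finset.prod_congr rfl fun j _ => hμs j _
  have hbr := br_meas e
  refine ⟨P.map (br e), Measure.isProbabilityMeasure_map hbr.aemeasurable, ?_, ?_⟩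
  · intro Q hQ h
    rw [ae_map_iff hbr.aemeasurable hQ]
    exact Eventually.of_forall h
  · intro J n hn s
    have hmeas : MeasurableSet {ω : ℕ → Bool | ∀ k : Fin n, ω k = s k} := by
      have : {ω : ℕ → Bool | ∀ k : Fin n, ω k = s k} = ⋂ k : Fin n, {ω | ω k = s k} := by
        ext ω; simp
      rw [this]
      refine MeasurableSet.iInter fun k => ?_
      have h : Measurable (fun ω : ℕ → Bool => ω (k : ℕ)) := measurable_pi_apply _
      exact h (MeasurableSet.singleton (s k))
    obtain ⟨Ex, hEx⟩ : ∃ Ex : Finset (Fin (N J) → Bool), Ex = Finset.univ.filter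
        (fun t => ∀ k : Fin n, t ⟨k, lt_of_lt_of_le k.2 hn⟩ = s k) := ⟨_, rfl⟩
    have hcard : Ex.card ≤ 2 ^ (N J - n) := by
      have h1 : Ex.card ≤ (Finset.univ : Finset (Fin (N J - n) → Bool)).card := by
        apply Finset.card_le_card_of_injOn (fun t (i : Fin (N J - n)) => t ⟨n + i, by omega⟩)
        · intro t _
          exact Finset.mem_coe.2 (Finset.mem_univ _)
        · intro t ht t' ht' h
          rw [Finset.mem_coe, hEx, Finset.mem_filter] at ht ht'
          funext k
          by_cases hk : (k : ℕ) < n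
          · have a1 := ht.2 ⟨k, hk⟩
            have a2 := ht'.2 ⟨k, hk⟩
            exact a1.trans a2.symm
          · have a1 := congrFun h ⟨(k : ℕ) - n, by omega⟩
            have a2 : (⟨n + ((k : ℕ) - n), by omega⟩ : Fin (N J)) = k := Fin.ext (by simp; omega)
            simp only at a1
            rw [a2] at a1
            exact a1
      rw [Finset.card_univ, Fintype.card_fun, Fintype.card_bool, Fintype.card_fin] at h1
      exact h1
    have hle : P.map (br e) {ω | ∀ k : Fin n, ω k = s k} ≤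
        (Ex.card : ℝ≥0∞) * ∏ j ∈ Finset.range J, ((M j : ℝ≥0∞))⁻¹ := by
      rw [Measure.map_apply hbr hmeas]
      have hsub : br e ⁻¹' {ω | ∀ k : Fin n, ω k = s k} ⊆ ⋃ t ∈ Ex, {x | wd e x J = t} := by
        intro x hx
        rw [Set.mem_iUnion₂]
        refine ⟨wd e x J, ?_, rfl⟩
        rw [hEx, Finset.mem_filter]
        refine ⟨Finset.mem_univ _, fun k => ?_⟩
        rw [← br_eq e hN he x J k (lt_of_lt_of_le k.2 hn)]
        exact hx k
      refine (measure_mono hsub).trans ((measure_biUnion_finset_le Ex _).trans ?_)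
      refine (Finset.sum_le_sum fun t _ => hcyl J t).trans (le_of_eq ?_)
      rw [Finset.sum_const, nsmul_eq_mul]
    have hreal : (P.map (br e)).real {ω | ∀ k : Fin n, ω k = s k} ≤
        (Ex.card : ℝ) * ∏ j ∈ Finset.range J, ((M j : ℝ))⁻¹ := by
      have h1 : (Ex.card : ℝ≥0∞) * ∏ j ∈ Finset.range J, ((M j : ℝ≥0∞))⁻¹ =
          ENNReal.ofReal ((Ex.card : ℝ) * ∏ j ∈ Finset.range J, ((M j : ℝ))⁻¹) := by
        rw [ENNReal.ofReal_mul (by positivity), ENNReal.ofReal_natCast,
          ENNReal.ofReal_prod_of_nonneg (fun j _ => by positivity)]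
        congr 1
        refine Finset.prod_congr rfl fun j _ => ?_
        rw [ENNReal.ofReal_inv_of_pos (by exact_mod_cast hM j), ENNReal.ofReal_natCast]
      rw [h1] at hle
      exact ENNReal.toReal_le_of_le_ofReal (by positivity) hle
    refine hreal.trans ?_
    have hprod : ∀ J, p₀ ^ J * 2 ^ N J ≤ ∏ j ∈ Finset.range J, (M j : ℝ) := by
      intro J
      induction J with
      | zero => simp [hN0]
      | succ J ih =>
        rw [Finset.prod_range_succ]
        have h1 : N (J + 1) = N J + (N (J + 1) - N J) := by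
          have : N J ≤ N (J + 1) := hN.monotone (Nat.le_succ J)
          omega
        calc p₀ ^ (J + 1) * 2 ^ N (J + 1) = p₀ ^ J * 2 ^ N J * (p₀ * 2 ^ (N (J + 1) - N J)) := by
              conv_lhs => rw [h1]
              rw [pow_succ, pow_add]
              ring
          _ ≤ _ := mul_le_mul ih (hMp J) (by positivity) (Finset.prod_nonneg fun j _ => Nat.cast_nonneg _)
    have h1 : ∏ j ∈ Finset.range J, ((M j : ℝ))⁻¹ ≤ (p₀ ^ J * 2 ^ N J)⁻¹ := by
      rw [Finset.prod_inv_distrib]
      exact inv_anti₀ (by positivity) (hprod J)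
    have h2 : (Ex.card : ℝ) ≤ 2 ^ (N J - n) := by exact_mod_cast hcard
    calc (Ex.card : ℝ) * ∏ j ∈ Finset.range J, ((M j : ℝ))⁻¹ ≤ 2 ^ (N J - n) * (p₀ ^ J * 2 ^ N J)⁻¹ :=
          mul_le_mul h2 h1 (Finset.prod_nonneg fun j _ => by positivity) (by positivity)
      _ = (p₀ ^ J * 2 ^ n)⁻¹ := by
          have h3 : (2 : ℝ) ^ N J = 2 ^ (N J - n) * 2 ^ n := by
            rw [← pow_add]
            congr 1
            omega
          rw [h3]
          field_simp

/-- **TREE** -/
theorem tree : S_TREE := by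
  classical
  intro p₀ N E hp0 hp1 hN0 hN hext hcard
  obtain ⟨M, hM⟩ : ∃ M : ℕ → ℕ, M = fun j => ⌈p₀ * 2 ^ (N (j + 1) - N j)⌉₊ := ⟨_, rfl⟩
  have hM0 : ∀ j, 0 < M j := by
    intro j
    rw [hM]
    exact Nat.ceil_pos.2 (by positivity)
  have hMp : ∀ j, p₀ * 2 ^ (N (j + 1) - N j) ≤ (M j : ℝ) := by
    intro j
    rw [hM]
    exact Nat.le_ceil _
  have hMc : ∀ j s, M j ≤ (E j s).card := by
    intro j s
    rw [hM]
    exact Nat.ceil_le.2 (hcard j s)
  have hch : ∀ j s, ∃ f : Fin (M j) → (Fin (N (j + 1)) → Bool), Function.Injective f ∧ ∀ i, f i ∈ E j s := by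
    intro j s
    refine ⟨fun i => ((E j s).equivFin.symm ⟨i, lt_of_lt_of_le i.2 (hMc j s)⟩).1, ?_, ?_⟩
    · intro i i' h
      have h1 := (E j s).equivFin.symm.injective (Subtype.ext h)
      have h2 := congrArg Fin.val h1
      exact Fin.ext h2
    · intro i
      exact ((E j s).equivFin.symm ⟨i, lt_of_lt_of_le i.2 (hMc j s)⟩).2
  choose e he1 he2 using hch
  have he : ∀ j s i (k : ℕ) (h1 : k < N j) (h2 : k < N (j + 1)), e j s i ⟨k, h2⟩ = s ⟨k, h1⟩ :=
    fun j s i k h1 h2 => hext j s _ (he2 j s i) k h1 h2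
  obtain ⟨ν, hν, hQ, hB⟩ := tree_main e hN0 hN hM0 he he1 hp0 hMp
  refine ⟨ν, hν, ?_, ?_⟩
  · apply hQ
    · have h1 : {ω : ℕ → Bool | ∀ j, (fun k : Fin (N (j + 1)) => ω k) ∈ E j (fun k : Fin (N j) => ω k)} =
          ⋂ j, (fun ω : ℕ → Bool => ((fun k : Fin (N (j + 1)) => ω k), (fun k : Fin (N j) => ω k))) ⁻¹'
            {p | p.1 ∈ E j p.2} := by
        ext ω; simp
      rw [h1]
      refine MeasurableSet.iInter fun j => ?_
      have h2 : Measurable (fun ω : ℕ → Bool =>
          ((fun k : Fin (N (j + 1)) => ω k), (fun k : Fin (N j) => ω k))) :=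
        (measurable_pi_iff.2 fun k => measurable_pi_apply _).prodMk
          (measurable_pi_iff.2 fun k => measurable_pi_apply _)
      exact h2 (Set.toFinite _).measurableSet
    · intro x j
      have h1 : (fun k : Fin (N (j + 1)) => br e x k) = wd e x (j + 1) := by
        funext k
        exact br_eq e hN he x (j + 1) k k.2
      have h2 : (fun k : Fin (N j) => br e x k) = wd e x j := by
        funext k
        exact br_eq e hN he x j k k.2
      rw [h1, h2]
      exact he2 j _ _
  · intro j n _ hn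
    obtain ⟨B, hBdef⟩ : ∃ B : ℝ, B = (p₀ ^ (j + 1) * 2 ^ n)⁻¹ := ⟨_, rfl⟩
    have hB0 : 0 < B := by rw [hBdef]; positivity
    have hb := hB (j + 1) n hn
    have hlogB : Real.log B = (j + 1) * Real.log (1 / p₀) - n * Real.log 2 := by
      rw [hBdef, Real.log_inv, Real.log_mul (by positivity) (by positivity), Real.log_pow, Real.log_pow,
        one_div, Real.log_inv]
      push_cast
      ring
    have hsum : ∑ s : Fin n → Bool, ν.real {ω | ∀ k : Fin n, ω k = s k} = 1 := by
      have hmeas : ∀ s : Fin n → Bool, MeasurableSet {ω : ℕ → Bool | ∀ k : Fin n, ω k = s k} := by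
        intro s
        have : {ω : ℕ → Bool | ∀ k : Fin n, ω k = s k} = ⋂ k : Fin n, {ω | ω k = s k} := by
          ext ω; simp
        rw [this]
        refine MeasurableSet.iInter fun k => ?_
        have h : Measurable (fun ω : ℕ → Bool => ω (k : ℕ)) := measurable_pi_apply _
        exact h (MeasurableSet.singleton (s k))
      have hU : (⋃ s : Fin n → Bool, {ω : ℕ → Bool | ∀ k : Fin n, ω k = s k}) = Set.univ := by
        rw [Set.eq_univ_iff_forall]
        intro ω
        rw [Set.mem_iUnion]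
        exact ⟨fun k => ω k, fun k => rfl⟩
      rw [← measureReal_iUnion_fintype _ hmeas, hU]
      · simp
      · intro s s' hss'
        rw [Function.onFun, Set.disjoint_left]
        intro ω h1 h2
        apply hss'
        funext k
        exact (h1 k).symm.trans (h2 k)
    have hent : -Real.log B ≤ entropy ν n := by
      unfold entropy
      calc -Real.log B = ∑ s : Fin n → Bool, ν.real {ω | ∀ k : Fin n, ω k = s k} * (-Real.log B) := by
            rw [← Finset.sum_mul, hsum, one_mul]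
        _ ≤ _ := by
            refine Finset.sum_le_sum fun s _ => ?_
            obtain ⟨q, hq⟩ : ∃ q, q = ν.real {ω | ∀ k : Fin n, ω k = s k} := ⟨_, rfl⟩
            have h1 := hb s
            rw [← hBdef, ← hq] at h1
            rw [← hq, Real.negMulLog]
            have hq0 : 0 ≤ q := by rw [hq]; exact measureReal_nonneg
            rcases hq0.eq_or_lt with h0 | h0
            · rw [← h0]; simp
            · have h2 := Real.log_le_log h0 h1
              have h3 := mul_le_mul_of_nonneg_left h2 h0.le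
              linarith
    unfold D
    rw [hlogB] at hent
    linarith

end Pool.Agent.Q150.IR
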